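import Pool.Agent.Y755.FK.Stm

set_option autoImplicit false

/-! FK-ZFR: the classical zero-free region for real characters. -/

namespace Pool.Agent.Y960.FK

open Complex Filter Topology Set Pool.Agent.Y755.FK
open scoped ArithmeticFunction.vonMangoldt

section

variable {q : ℕ} [NeZero q]

/-- the coefficients of `-L'/L` -/
noncomputable def cf (χ : DirichletCharacter ℂ q) : ℕ → ℂ :=
  (fun n : ℕ => (χ n : ℂ)) * (fun n : ℕ => (Λ n : ℂ))

theorem cf_sum (χ : DirichletCharacter ℂ q) {s : ℂ} (hs : 1 < s.re) : LSeriesSummable (cf χ) s :=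
  DirichletCharacter.LSeriesSummable_twist_vonMangoldt χ hs

/-- the real part of `-L'/L` -/
noncomputable def FF (χ : DirichletCharacter ℂ q) (s : ℂ) : ℝ :=
  -(deriv (DirichletCharacter.LFunction χ) s / DirichletCharacter.LFunction χ s).re

theorem FF_eq (χ : DirichletCharacter ℂ q) {s : ℂ} (hs : 1 < s.re) :
    FF χ s = ∑' n, (LSeries.term (cf χ) s n).re := by
  have h1 : LSeries (cf χ) s = -deriv (LSeries fun n : ℕ => (χ n : ℂ)) s /
      LSeries (fun n : ℕ => (χ n : ℂ)) s :=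
    DirichletCharacter.LSeries_twist_vonMangoldt_eq χ hs
  rw [← Complex.re_tsum (cf_sum χ hs)]
  change FF χ s = (LSeries (cf χ) s).re
  rw [h1, FF, DirichletCharacter.deriv_LFunction_eq_deriv_LSeries χ hs,
    DirichletCharacter.LFunction_eq_LSeries χ hs, neg_div, neg_re]

theorem cf_re_sum (χ : DirichletCharacter ℂ q) {s : ℂ} (hs : 1 < s.re) :
    Summable fun n => (LSeries.term (cf χ) s n).re := by
  have := Complex.reCLM.summable (cf_sum χ hs)
  exact this

/-- the nonnegative factor of the terms -/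
noncomputable def AA (σ : ℝ) (n : ℕ) : ℝ := Λ n / (n : ℝ) ^ σ

theorem AA_nonneg (σ : ℝ) (n : ℕ) : 0 ≤ AA σ n :=
  div_nonneg ArithmeticFunction.vonMangoldt_nonneg (by positivity)

theorem term_eq (χ : DirichletCharacter ℂ q) (σ t : ℝ) {n : ℕ} (hn : n ≠ 0) :
    LSeries.term (cf χ) (σ + t * I) n = (AA σ n : ℂ) * (χ n / (n : ℂ) ^ (t * I)) := by
  have hn0 : (n : ℂ) ≠ 0 := by exact_mod_cast hn
  rw [LSeries.term_of_ne_zero hn, cpow_add _ _ hn0]
  have e3 : (n : ℂ) ^ (σ : ℂ) = (((n : ℝ) ^ σ : ℝ) : ℂ) := by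
    rw [Complex.ofReal_cpow (Nat.cast_nonneg n)]
    simp
  rw [e3]
  simp only [cf, Pi.mul_apply, AA]
  push_cast
  have h1 : ((n : ℂ) ^ (σ : ℂ)) ≠ 0 := by
    rw [e3]
    have : (0 : ℝ) < (n : ℝ) ^ σ := Real.rpow_pos_of_pos (by exact_mod_cast Nat.pos_of_ne_zero hn) _
    exact_mod_cast this.ne'
  have h2 : ((n : ℂ) ^ (t * I)) ≠ 0 := by
    rw [cpow_def_of_ne_zero hn0]
    exact exp_ne_zero _
  rw [Complex.ofReal_cpow (Nat.cast_nonneg n), Complex.ofReal_natCast] at e3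
  rw [Complex.ofReal_cpow (Nat.cast_nonneg n), Complex.ofReal_natCast]
  field_simp

theorem norm_it (t : ℝ) {n : ℕ} (hn : n ≠ 0) : ‖(n : ℂ) ^ (t * I)‖ = 1 := by
  have : (0 : ℝ) < n := by exact_mod_cast Nat.pos_of_ne_zero hn
  rw [← Complex.ofReal_natCast, Complex.norm_cpow_eq_rpow_re_of_pos this]
  simp

/-- the values of a real character -/
theorem val_sq {χ : DirichletCharacter ℂ q} (h2 : χ ^ 2 = 1) (n : ℕ) :
    ((χ n : ℂ) = 0 ∧ ((1 : DirichletCharacter ℂ q) n : ℂ) = 0) ∨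
    ((χ n : ℂ) ^ 2 = 1 ∧ ((1 : DirichletCharacter ℂ q) n : ℂ) = 1) := by
  by_cases hu : IsUnit (n : ZMod q)
  · right
    have h1 : ((1 : DirichletCharacter ℂ q) n : ℂ) = 1 := MulChar.one_apply hu
    refine ⟨?_, h1⟩
    rw [← h1, ← h2, MulChar.pow_apply' _ (by norm_num)]
  · left
    exact ⟨MulChar.map_nonunit _ hu, MulChar.map_nonunit _ hu⟩

/-- the inequality `3 + 4 cos + cos 2 ≥ 0` for the logarithmic derivatives -/
theorem comb {χ : DirichletCharacter ℂ q} (h2 : χ ^ 2 = 1) {σ : ℝ} (hσ : 1 < σ) (t : ℝ) :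
    0 ≤ 3 * FF (1 : DirichletCharacter ℂ q) (σ + (0 : ℝ) * I) + 4 * FF χ (σ + t * I) +
      FF (1 : DirichletCharacter ℂ q) (σ + (2 * t : ℝ) * I) := by
  have hre : ∀ y : ℝ, 1 < ((σ : ℂ) + y * I).re := fun y => by simpa using hσ
  rw [FF_eq _ (hre _), FF_eq _ (hre _), FF_eq _ (hre _), ← tsum_mul_left, ← tsum_mul_left,
    ← ((cf_re_sum (1 : DirichletCharacter ℂ q) (hre 0)).mul_left 3).tsum_add
      ((cf_re_sum χ (hre t)).mul_left 4),
    ← (((cf_re_sum (1 : DirichletCharacter ℂ q) (hre 0)).mul_left 3).add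
      ((cf_re_sum χ (hre t)).mul_left 4)).tsum_add
      (cf_re_sum (1 : DirichletCharacter ℂ q) (hre (2 * t)))]
  refine tsum_nonneg fun n => ?_
  rcases eq_or_ne n 0 with rfl | hn
  · simp
  rw [term_eq _ _ _ hn, term_eq _ _ _ hn, term_eq _ _ _ hn, re_ofReal_mul, re_ofReal_mul,
    re_ofReal_mul]
  have hA := AA_nonneg σ n
  suffices h : 0 ≤ 3 * (((1 : DirichletCharacter ℂ q) n : ℂ) / (n : ℂ) ^ ((0 : ℝ) * I)).re +
      4 * ((χ n : ℂ) / (n : ℂ) ^ (t * I)).re +
      (((1 : DirichletCharacter ℂ q) n : ℂ) / (n : ℂ) ^ ((2 * t : ℝ) * I)).re by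
    have := mul_nonneg hA h
    linarith
  rcases val_sq h2 n with ⟨h3, h4⟩ | ⟨h3, h4⟩
  · rw [h3, h4]
    simp
  · rw [h4]
    set w : ℂ := (χ n : ℂ) / (n : ℂ) ^ (t * I) with hw
    have hn0 : (n : ℂ) ≠ 0 := by exact_mod_cast hn
    have e1 : (1 : ℂ) / (n : ℂ) ^ ((0 : ℝ) * I) = 1 := by simp
    have e2 : (1 : ℂ) / (n : ℂ) ^ ((2 * t : ℝ) * I) = w ^ 2 := by
      rw [hw, div_pow, h3, ← cpow_nat_mul]
      congr 2
      push_cast
      ring
    have e3 : ‖w‖ = 1 := by
      have : ‖(χ n : ℂ)‖ ^ 2 = 1 := by rw [← norm_pow, h3, norm_one]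
      rw [hw, norm_div, norm_it t hn, div_one]
      exact (pow_eq_one_iff_of_nonneg (norm_nonneg _) (by norm_num)).1 this
    rw [e1, e2]
    have e4 : w.re * w.re + w.im * w.im = 1 := by
      rw [← Complex.normSq_apply, Complex.normSq_eq_norm_sq, e3]
      norm_num
    have e5 : (w ^ 2).re = w.re * w.re - w.im * w.im := by
      rw [sq, mul_re]
    rw [e5, one_re]
    nlinarith [sq_nonneg (w.re + 1)]

theorem comb2 {χ : DirichletCharacter ℂ q} (h2 : χ ^ 2 = 1) {σ : ℝ} (hσ : 1 < σ) :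
    0 ≤ FF (1 : DirichletCharacter ℂ q) (σ + (0 : ℝ) * I) + FF χ (σ + (0 : ℝ) * I) := by
  have hre : ∀ y : ℝ, 1 < ((σ : ℂ) + y * I).re := fun y => by simpa using hσ
  rw [FF_eq _ (hre _), FF_eq _ (hre _),
    ← (cf_re_sum (1 : DirichletCharacter ℂ q) (hre 0)).tsum_add (cf_re_sum χ (hre 0))]
  refine tsum_nonneg fun n => ?_
  rcases eq_or_ne n 0 with rfl | hn
  · simp
  rw [term_eq _ _ _ hn, term_eq _ _ _ hn, re_ofReal_mul, re_ofReal_mul, ← mul_add]
  refine mul_nonneg (AA_nonneg σ n) ?_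
  have e1 : (n : ℂ) ^ ((0 : ℝ) * I) = 1 := by simp
  rw [e1, div_one, div_one]
  rcases val_sq h2 n with ⟨h3, h4⟩ | ⟨h3, h4⟩
  · rw [h3, h4]
    simp
  · rw [h4, one_re]
    have e3 : ‖(χ n : ℂ)‖ = 1 := by
      have : ‖(χ n : ℂ)‖ ^ 2 = 1 := by rw [← norm_pow, h3, norm_one]
      exact (pow_eq_one_iff_of_nonneg (norm_nonneg _) (by norm_num)).1 this
    have := Complex.abs_re_le_norm (χ n : ℂ)
    rw [e3, abs_le] at this
    linarith [this.1]

theorem LFunction_conj (χ : DirichletCharacter ℂ q) (s : ℂ) (hs : s ≠ 1) :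
    DirichletCharacter.LFunction χ⁻¹ ((starRingEnd ℂ) s) =
      (starRingEnd ℂ) (DirichletCharacter.LFunction χ s) := by
  have hg_an : AnalyticOnNhd ℂ (fun z ↦ (starRingEnd ℂ)
      (DirichletCharacter.LFunction χ⁻¹ ((starRingEnd ℂ) z))) {1}ᶜ :=
    DifferentiableOn.analyticOnNhd
      (fun z hz ↦ (differentiableAt_conj_conj_iff.mpr <|
        DirichletCharacter.differentiableAt_LFunction _ _ (Or.inl <|
        (map_ne_one_iff _ (starRingEnd ℂ).injective).mpr hz)).differentiableWithinAt)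
      isOpen_compl_singleton
  have hf_an : AnalyticOnNhd ℂ (DirichletCharacter.LFunction χ) {1}ᶜ :=
    DifferentiableOn.analyticOnNhd
      (fun z hz ↦ (DirichletCharacter.differentiableAt_LFunction _ _
        (Or.inl hz)).differentiableWithinAt) isOpen_compl_singleton
  have hgz (z : ℂ) (hz : 1 < z.re) : (starRingEnd ℂ)
      (DirichletCharacter.LFunction χ⁻¹ ((starRingEnd ℂ) z)) = DirichletCharacter.LFunction χ z := by
    rw [DirichletCharacter.LFunction_eq_LSeries _ (by rwa [conj_re]),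
      DirichletCharacter.LFunction_eq_LSeries _ hz, LSeries, LSeries, conj_tsum]
    refine tsum_congr fun n ↦ ?_
    rcases eq_or_ne n 0 with rfl | hn
    · simp
    · rw [LSeries.term_of_ne_zero hn, LSeries.term_of_ne_zero hn, map_div₀,
        ← conj_cpow _ _ (by rw [natCast_arg]; positivity), conj_natCast,
        ← MulChar.star_apply']
      simp
  have heq : EqOn (fun z ↦ (starRingEnd ℂ)
      (DirichletCharacter.LFunction χ⁻¹ ((starRingEnd ℂ) z))) (DirichletCharacter.LFunction χ) {1}ᶜ :=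
    hg_an.eqOn_of_preconnected_of_eventuallyEq hf_an
      (isConnected_compl_singleton_of_one_lt_rank (by simp) 1).isPreconnected
      (by norm_num : (2 : ℂ) ∈ _)
      (eventuallyEq_of_mem
        ((isOpen_lt continuous_const continuous_re).mem_nhds (by norm_num)) hgz)
  simpa using congrArg (starRingEnd ℂ) (heq hs)

end

/-- zeros near `1` seen from `1 + 4 h` -/
theorem near {h : ℝ} (hh : 0 < h) (hh2 : h ≤ 1 / 50) {ρ : ℂ} (h1 : ρ.re < 1)
    (h2 : 1 - h / 10 ≤ ρ.re) (h3 : |ρ.im| ≤ h) :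
    ‖(((1 + 4 * h : ℝ) : ℂ) + (0 : ℝ) * I) - ρ‖ ≤ 1 / 8 ∧
    9 / 40 / h ≤ (1 / ((((1 + 4 * h : ℝ) : ℂ) + (0 : ℝ) * I) - ρ)).re := by
  set z : ℂ := (((1 + 4 * h : ℝ) : ℂ) + (0 : ℝ) * I) - ρ with hz
  have hre : z.re = 1 + 4 * h - ρ.re := by simp [hz]
  have him : z.im = -ρ.im := by simp [hz]
  have him2 : z.im * z.im ≤ h * h := by
    rw [him, neg_mul_neg, ← abs_mul_abs_self ρ.im]
    exact mul_self_le_mul_self (abs_nonneg _) h3
  refine ⟨?_, ?_⟩
  · refine (Complex.norm_le_abs_re_add_abs_im z).trans ?_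
    rw [hre, him, abs_neg, abs_of_nonneg (by linarith)]
    linarith
  · rw [one_div, Complex.inv_re, Complex.normSq_apply]
    have a1 : 4 * h ≤ z.re := by rw [hre]; linarith
    have a2 : z.re ≤ 41 / 10 * h := by rw [hre]; linarith
    have a0 : 0 < z.re := by linarith
    rw [div_div, div_le_div_iff₀ (by positivity) (by nlinarith [mul_self_nonneg z.im])]
    nlinarith [mul_le_mul_of_nonneg_left a2 a0.le, mul_le_mul_of_nonneg_left a1 hh.le]

theorem t_ZFR : S_LD → S_ZFR := by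
  rintro ⟨C, hC, hLD, hLD0⟩
  set A : ℝ := 3 * C + 5 with hA
  have hA5 : 5 ≤ A := by linarith
  have hA0 : 0 < A := by linarith
  set δ : ℝ := 1 / (20 * A) with hδ
  have hδ0 : 0 < δ := by positivity
  have hδ1 : δ ≤ 1 / 100 := by
    rw [hδ]
    apply one_div_le_one_div_of_le (by norm_num)
    linarith
  refine ⟨δ / 10, by positivity, fun q _ χ hχ2 hχ T hT => ?_⟩
  have hq : (1 : ℝ) ≤ q := by exact_mod_cast Nat.one_le_iff_ne_zero.2 (NeZero.ne q)
  set l : ℝ := Real.log (q * T) with hl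
  have hqT : 2 ≤ (q : ℝ) * T := by nlinarith
  have hl1 : 1 / 2 ≤ l := by
    have h1 : Real.log 2 ≤ l := Real.log_le_log (by norm_num) hqT
    have h2 := Real.log_two_gt_d9
    linarith
  have hl0 : 0 < l := by linarith
  have hlog : ∀ y : ℝ, |y| ≤ 2 * T → C * Real.log (q * (|y| + 3)) ≤ A * l := by
    intro y hy
    have h1 : Real.log (q * (|y| + 3)) ≤ 3 * l := by
      rw [hl, ← Real.log_rpow (by linarith)]
      refine Real.log_le_log (by positivity) ?_
      have e : ((q : ℝ) * T) ^ (3 : ℝ) = ((q : ℝ) * T) * ((q : ℝ) * T) ^ 2 := by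
        rw [show (3 : ℝ) = ((3 : ℕ) : ℝ) by norm_num, Real.rpow_natCast]
        ring
      rw [e]
      have h4 : (4 : ℝ) ≤ ((q : ℝ) * T) ^ 2 := by nlinarith
      have h5 : (q : ℝ) * (|y| + 3) ≤ (q : ℝ) * T * 4 := by
        have : |y| + 3 ≤ T * 4 := by linarith
        calc (q : ℝ) * (|y| + 3) ≤ q * (T * 4) := mul_le_mul_of_nonneg_left this (by linarith)
          _ = (q : ℝ) * T * 4 := by ring
      exact h5.trans (mul_le_mul_of_nonneg_left h4 (by linarith))
    have h2 : C * Real.log (q * (|y| + 3)) ≤ C * (3 * l) := mul_le_mul_of_nonneg_left h1 hC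
    have h3 : 0 ≤ 5 * l := by linarith
    rw [hA]
    linarith
  set h : ℝ := δ / l with hh
  have hh0 : 0 < h := by positivity
  have hh1 : h ≤ 1 / 50 := by
    rw [hh, div_le_iff₀ hl0]
    linarith
  have hinv : 1 / h = 20 * A * l := by
    rw [hh, hδ]
    field_simp
  have hc : δ / 10 / l = h / 10 := by rw [hh]; ring
  rw [hc]
  -- the zeros have real part less than one
  have hlt : ∀ ρ : ℂ, DirichletCharacter.LFunction χ ρ = 0 → ρ.re < 1 := by
    intro ρ hρ
    by_contra hcon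
    exact DirichletCharacter.LFunction_ne_zero_of_one_le_re χ (Or.inl hχ) (not_lt.1 hcon) hρ
  -- bounds
  have hB1 : ∀ s : ℂ, 1 < s.re → s.re ≤ 3 / 2 → |s.im| ≤ 2 * T →
      FF (1 : DirichletCharacter ℂ q) s ≤ (1 / (s - 1)).re + A * l := by
    intro s h1 h2 h3
    have := hLD0 q s h1 h2
    have h4 := hlog s.im h3
    unfold FF
    linarith
  -- no zeros with large imaginary part
  have hfar : ∀ ρ : ℂ, DirichletCharacter.LFunction χ ρ = 0 → 1 - h / 10 ≤ ρ.re → |ρ.im| ≤ T →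
      |ρ.im| < h := by
    intro ρ hρ h1 h2
    by_contra hcon
    push Not at hcon
    have h3 := hlt ρ hρ
    have h4 := comb hχ2 (σ := 1 + h) (by linarith) ρ.im
    set s0 : ℂ := ((1 + h : ℝ) : ℂ) + (0 : ℝ) * I with hs0
    set s1 : ℂ := ((1 + h : ℝ) : ℂ) + ρ.im * I with hs1
    set s2 : ℂ := ((1 + h : ℝ) : ℂ) + (2 * ρ.im : ℝ) * I with hs2
    have r0 : s0.re = 1 + h := by simp [hs0]
    have r1 : s1.re = 1 + h := by simp [hs1]
    have r2 : s2.re = 1 + h := by simp [hs2]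
    have i0 : s0.im = 0 := by simp [hs0]
    have i1 : s1.im = ρ.im := by simp [hs1]
    have i2 : s2.im = 2 * ρ.im := by simp [hs2]
    have b0 := hB1 s0 (by linarith) (by linarith) (by rw [i0, abs_zero]; linarith)
    have b2 := hB1 s2 (by linarith) (by linarith) (by
      rw [i2, abs_mul, abs_of_pos (by norm_num : (0 : ℝ) < 2)]; linarith)
    have e1 : s1 - ρ = ((1 + h - ρ.re : ℝ) : ℂ) := by
      apply Complex.ext
      · simp [hs1]
      · simp [hs1]
    have b1 := ((hLD q χ hχ s1 (by linarith) (by linarith)).2.1 ρ hρ (by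
      rw [e1, Complex.norm_real, Real.norm_eq_abs, abs_of_pos (by linarith)]
      linarith))
    have b1' := hlog s1.im (by rw [i1]; linarith)
    have b3 : FF χ s1 ≤ A * l - (1 / (s1 - ρ)).re := by
      unfold FF
      linarith
    have c1 : 10 / (11 * h) ≤ (1 / (s1 - ρ)).re := by
      rw [e1, ← Complex.ofReal_one, ← Complex.ofReal_div, Complex.ofReal_re,
        div_le_div_iff₀ (by positivity) (by linarith)]
      linarith
    have c0 : (1 / (s0 - 1)).re = 1 / h := by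
      have : s0 - 1 = ((h : ℝ) : ℂ) := by
        apply Complex.ext
        · simp [hs0]
        · simp [hs0]
      rw [this, ← Complex.ofReal_one, ← Complex.ofReal_div, Complex.ofReal_re]
    have c2 : (1 / (s2 - 1)).re ≤ 1 / (5 * h) := by
      rw [one_div, Complex.inv_re, Complex.normSq_apply]
      have e2 : (s2 - 1).re = h := by rw [sub_re, r2, one_re]; ring
      have e3 : (s2 - 1).im = 2 * ρ.im := by rw [sub_im, i2, one_im, sub_zero]
      rw [e2, e3]
      have h5 : h * h ≤ ρ.im * ρ.im := by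
        rw [← abs_mul_abs_self ρ.im]
        exact mul_self_le_mul_self hh0.le hcon
      have h6 := mul_pos hh0 hh0
      rw [div_le_div_iff₀ (by linarith) (by positivity)]
      linarith
    rw [c0] at b0
    have f1 : 10 / (11 * h) = 10 / 11 * (1 / h) := by field_simp
    have f2 : 1 / (5 * h) = 1 / 5 * (1 / h) := by field_simp
    rw [f1, hinv] at c1
    rw [f2, hinv] at c2
    rw [hinv] at b0
    have hAl : 0 < A * l := by positivity
    linarith
  -- two zeros
  have htwo : ∀ ρ ρ' : ℂ, DirichletCharacter.LFunction χ ρ = 0 →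
      DirichletCharacter.LFunction χ ρ' = 0 → 1 - h / 10 ≤ ρ.re → 1 - h / 10 ≤ ρ'.re →
      |ρ.im| ≤ h → |ρ'.im| ≤ h →
      (ρ ≠ ρ' ∨ deriv (DirichletCharacter.LFunction χ) ρ = 0) → False := by
    intro ρ ρ' hρ hρ' h1 h1' h2 h2' h3
    obtain ⟨n1, n2⟩ := near hh0 hh1 (hlt ρ hρ) h1 h2
    obtain ⟨n1', n2'⟩ := near hh0 hh1 (hlt ρ' hρ') h1' h2'
    have h4 := comb2 hχ2 (σ := 1 + 4 * h) (by linarith)
    set s0 : ℂ := ((1 + 4 * h : ℝ) : ℂ) + (0 : ℝ) * I with hs0
    have r0 : s0.re = 1 + 4 * h := by simp [hs0]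
    have i0 : s0.im = 0 := by simp [hs0]
    have b0 := hB1 s0 (by linarith) (by linarith) (by rw [i0, abs_zero]; linarith)
    have b1 := ((hLD q χ hχ s0 (by linarith) (by linarith)).2.2 ρ ρ' hρ hρ' n1 n1' h3)
    have b1' := hlog s0.im (by rw [i0, abs_zero]; linarith)
    have b3 : FF χ s0 ≤ A * l - (1 / (s0 - ρ)).re - (1 / (s0 - ρ')).re := by
      unfold FF
      linarith
    have c0 : (1 / (s0 - 1)).re = 1 / (4 * h) := by
      have : s0 - 1 = ((4 * h : ℝ) : ℂ) := by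
        apply Complex.ext
        · simp [hs0]
        · simp [hs0]
      rw [this, ← Complex.ofReal_one, ← Complex.ofReal_div, Complex.ofReal_re]
    have f1 : 9 / 40 / h = 9 / 40 * (1 / h) := by ring
    have f2 : 1 / (4 * h) = 1 / 4 * (1 / h) := by field_simp
    rw [f1, hinv] at n2 n2'
    rw [c0, f2, hinv] at b0
    have hAl : 0 < A * l := by positivity
    linarith
  by_cases hex : ∃ ρ : ℂ, 1 - h / 10 ≤ ρ.re ∧ |ρ.im| ≤ T ∧ DirichletCharacter.LFunction χ ρ = 0
  · obtain ⟨ρ, h1, h2, h3⟩ := hex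
    have h4 := (hfar ρ h3 h1 h2).le
    have hρ1 : ρ ≠ 1 := by
      intro he
      have := hlt ρ h3
      rw [he, one_re] at this
      exact lt_irrefl _ this
    have hinv2 : χ⁻¹ = χ := by
      rw [inv_eq_iff_mul_eq_one, ← sq]
      exact hχ2
    have hconj : DirichletCharacter.LFunction χ ((starRingEnd ℂ) ρ) = 0 := by
      have := LFunction_conj χ ρ hρ1
      rw [hinv2, h3, map_zero] at this
      exact this
    have hreal : ρ = (ρ.re : ℂ) := by
      by_contra hne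
      refine htwo ρ ((starRingEnd ℂ) ρ) h3 hconj h1 (by rwa [conj_re]) h4
        (by rwa [conj_im, abs_neg]) (Or.inl fun he => hne ?_)
      have := congrArg Complex.im he
      rw [conj_im] at this
      apply Complex.ext
      · simp
      · rw [ofReal_im]
        linarith
    refine ⟨ρ.re, hlt ρ h3, fun s hs1 hs2 hs3 => ?_⟩
    have h5 := (hfar s hs3 hs1 hs2).le
    have h6 : s = ρ := by
      by_contra hne
      exact htwo s ρ hs3 h3 hs1 h1 h5 h4 (Or.inl hne)
    refine ⟨h6.trans hreal, fun hd => htwo s s hs3 hs3 hs1 hs1 h5 h5 (Or.inr hd)⟩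
  · refine ⟨0, by norm_num, fun s hs1 hs2 hs3 => absurd ⟨s, hs1, hs2, hs3⟩ hex⟩

end Pool.Agent.Y960.FK
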